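import Pool.Agent.helper60.DA.SpecV

/-! Row dv:STAR: the explicit form of the auxiliary polynomial `Gm`. -/

namespace Pool.Agent.helper60.DA

open Polynomial Finset Pool.Agent.helper60.DK

theorem STAR_hm_natDegree {R : Type*} [CommRing R] (d : ℕ) (f : R[X]) :
    (hm d f).natDegree ≤ 2 * d := by
  unfold hm
  apply natDegree_sum_le_of_forall_le
  intro i hi
  have hi' : i ≤ d := by
    have := mem_range.mp hi
    omega
  have h1 : ((X ^ 2 - 1 : R[X]) ^ i).natDegree ≤ i * 2 := by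
    refine (natDegree_pow_le).trans (Nat.mul_le_mul_left _ ?_)
    refine (natDegree_sub_le _ _).trans (max_le (natDegree_X_pow_le 2) ?_)
    simp
  have h2 : ((4 - X ^ 2 : R[X]) ^ (d - i)).natDegree ≤ (d - i) * 2 := by
    refine (natDegree_pow_le).trans (Nat.mul_le_mul_left _ ?_)
    refine (natDegree_sub_le _ _).trans (max_le ?_ (natDegree_X_pow_le 2))
    rw [natDegree_ofNat]
    exact Nat.zero_le _
  have h3 : ((X ^ 2 - 1 : R[X]) ^ i * (4 - X ^ 2) ^ (d - i)).natDegree ≤ i * 2 + (d - i) * 2 :=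
    natDegree_mul_le.trans (Nat.add_le_add h1 h2)
  refine (natDegree_C_mul_le _ _).trans (h3.trans ?_)
  omega

theorem STAR_hm_eval {R : Type*} [CommRing R] (d : ℕ) (f : R[X]) (a : R) (ha : a ^ 2 = 1)
    (h0 : f.coeff 0 = 0) : (hm d f).eval a = 0 := by
  unfold hm
  rw [eval_finsetSum]
  apply sum_eq_zero
  intro i _
  rcases Nat.eq_zero_or_pos i with h | h
  · subst h
    rw [h0, eval_mul, eval_C, zero_mul]
  · rw [eval_mul, eval_mul, eval_pow, eval_sub, eval_pow, eval_X, eval_one, ha, sub_self,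
      zero_pow (by omega)]
    ring

theorem STAR_ph_eval {p : ℕ} [Fact p.Prime] (a : ZMod p) (b : (ZMod p)[X]) :
    (ph p (X : (ZMod p)[X]) b).eval a = ph p a (b.eval a) := by
  have h := map_ph (p := p) (evalRingHom a) (X : (ZMod p)[X]) b
  rw [coe_evalRingHom, eval_X] at h
  exact h

theorem STAR_Gm_natDegree {p : ℕ} [Fact p.Prime] (h7 : 7 ≤ p) (h3 : p % 3 = 1)
    (v : (ZMod p)[X]) (hK : (Kp p).natDegree ≤ p - 1 - nn p)
    (hD : (Ds p).natDegree = 3 * nn p)
    (hP : ∀ a : ℤ, (ph p (X : (ZMod p)[X]) (a : (ZMod p)[X])).natDegree ≤ p - 1) :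
    (Gm p v).natDegree ≤ 5 * p - 3 := by
  have hn : p = 3 * nn p + 1 := by
    unfold nn; omega
  have hh2 : 2 * hh p + 1 = p := by
    have := p_odd (p := p) (by omega)
    unfold hh; omega
  have h1 : ((X ^ p + 2 : (ZMod p)[X])).natDegree ≤ p := by
    refine (natDegree_add_le _ _).trans (max_le (natDegree_X_pow_le p) ?_)
    rw [natDegree_ofNat]; exact Nat.zero_le _
  have h2 : ((X ^ p - 1 : (ZMod p)[X])).natDegree ≤ p := by
    refine (natDegree_sub_le _ _).trans (max_le (natDegree_X_pow_le p) ?_)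
    simp
  have h4 : ((X ^ p + 1 : (ZMod p)[X])).natDegree ≤ p := by
    refine (natDegree_add_le _ _).trans (max_le (natDegree_X_pow_le p) ?_)
    simp
  have h5 : ((X ^ p + 3 : (ZMod p)[X])).natDegree ≤ p := by
    refine (natDegree_add_le _ _).trans (max_le (natDegree_X_pow_le p) ?_)
    rw [natDegree_ofNat]; exact Nat.zero_le _
  have hX : ((X ^ p : (ZMod p)[X])).natDegree ≤ p := natDegree_X_pow_le p
  have hys : (ys p).natDegree ≤ 3 := by
    unfold ys
    refine (natDegree_C_mul_le _ _).trans ?_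
    refine natDegree_mul_le.trans ?_
    have a1 : (((X - 1) ^ 2 : (ZMod p)[X])).natDegree ≤ 2 * 1 := by
      refine natDegree_pow_le.trans (Nat.mul_le_mul_left _ ?_)
      refine (natDegree_sub_le _ _).trans (max_le natDegree_X_le ?_)
      simp
    have a2 : ((X + 2 : (ZMod p)[X])).natDegree ≤ 1 := by
      refine (natDegree_add_le _ _).trans (max_le natDegree_X_le ?_)
      rw [natDegree_ofNat]; exact Nat.zero_le _
    omega
  have hKs : (Ks p).natDegree ≤ 2 * p - 2 := by
    unfold Ks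
    refine natDegree_comp_le.trans ?_
    have : (Kp p).natDegree * (ys p).natDegree ≤ (p - 1 - nn p) * 3 := Nat.mul_le_mul hK hys
    omega
  have hm3 := STAR_hm_natDegree (3 * hh p) v
  have p1 : ((X ^ p + 2) * (X ^ p - 1) * hm (3 * hh p) v).natDegree ≤ p + p + 2 * (3 * hh p) :=
    natDegree_mul_le.trans (Nat.add_le_add (natDegree_mul_le.trans (Nat.add_le_add h1 h2)) hm3)
  have p2 : (X ^ p * (X ^ p + 1) * (Ks p * Ds p)).natDegree ≤ p + p + (2 * p - 2 + 3 * nn p) :=
    natDegree_mul_le.trans (Nat.add_le_add (natDegree_mul_le.trans (Nat.add_le_add hX h4))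
      (natDegree_mul_le.trans (Nat.add_le_add hKs hD.le)))
  have q1 : (ph p (X : (ZMod p)[X]) (-2)).natDegree ≤ p - 1 := by
    have := hP (-2)
    push_cast at this
    exact this
  have q2 : (ph p (X : (ZMod p)[X]) 1).natDegree ≤ p - 1 := by
    have := hP 1
    push_cast at this
    exact this
  have q3 : (ph p (X : (ZMod p)[X]) 2).natDegree ≤ p - 1 := by
    have := hP 2
    push_cast at this
    exact this
  have r1 : (C (1 / 2) * (X ^ p + 3) * ph p X (-2) : (ZMod p)[X]).natDegree ≤ p + (p - 1) :=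
    natDegree_mul_le.trans (Nat.add_le_add ((natDegree_C_mul_le _ _).trans h5) q1)
  have r2 : (2 * X ^ p * ph p X 1 : (ZMod p)[X]).natDegree ≤ p + (p - 1) := by
    refine natDegree_mul_le.trans (Nat.add_le_add ?_ q2)
    have : (2 * X ^ p : (ZMod p)[X]) = C 2 * X ^ p := rfl
    rw [this]
    exact (natDegree_C_mul_le _ _).trans hX
  have r3 : (C (3 / 2) * (X ^ p - 1) * ph p X 2 : (ZMod p)[X]).natDegree ≤ p + (p - 1) :=
    natDegree_mul_le.trans (Nat.add_le_add ((natDegree_C_mul_le _ _).trans h2) q3)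
  have r4 : (C (1 / 2) * (X ^ p + 3) * ph p X (-2) - 2 * X ^ p * ph p X 1
        + C (3 / 2) * (X ^ p - 1) * ph p X 2 : (ZMod p)[X]).natDegree ≤ p + (p - 1) :=
    (natDegree_add_le _ _).trans (max_le ((natDegree_sub_le _ _).trans (max_le r1 r2)) r3)
  have hD2 : (Ds p ^ 2).natDegree ≤ 2 * (3 * nn p) := by
    refine natDegree_pow_le.trans (Nat.mul_le_mul_left _ hD.le)
  have p3 : (Ds p ^ 2 * (C (1 / 2) * (X ^ p + 3) * ph p X (-2) - 2 * X ^ p * ph p X 1
        + C (3 / 2) * (X ^ p - 1) * ph p X 2)).natDegree ≤ 2 * (3 * nn p) + (p + (p - 1)) :=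
    natDegree_mul_le.trans (Nat.add_le_add hD2 r4)
  unfold Gm
  refine (natDegree_sub_le _ _).trans (max_le (p1.trans (by omega)) ?_)
  refine (natDegree_C_mul_le _ _).trans ((natDegree_add_le _ _).trans (max_le (p2.trans (by omega))
    (p3.trans (by omega))))

theorem STAR (hVEX : VEX_stmt) (hGAM : GAM_stmt) (hCST : CST_stmt) (hDN : DN_stmt)
    (hK2 : K2_stmt) (hPHV : PHV_stmt) (hPHD : PHD_stmt) : STAR_stmt := by
  intro p hp h7 h3 V hV
  have hn : p = 3 * nn p + 1 := by
    unfold nn; omega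
  obtain ⟨hDd, hDa⟩ := hDN p h7
  have hD0 : Ds p ≠ 0 := by
    intro h
    rw [h, natDegree_zero] at hDd
    omega
  have hP0 : Ds p ^ 2 ≠ 0 := pow_ne_zero _ hD0
  have hPd : (Ds p ^ 2).natDegree = 2 * p - 2 := by
    rw [natDegree_pow, hDd]; omega
  obtain ⟨g, hg⟩ := hCST p (Gm p (red p V)) (Ds p ^ 2) hP0 (by omega) hDa (hGAM p h7 h3 V hV)
  obtain ⟨hK0, hKd, -⟩ := hK2 p (by omega)
  obtain ⟨-, -, hPd2, -⟩ := hPHD p (by omega)
  have hGd := STAR_Gm_natDegree h7 h3 (red p V) hKd hDd hPd2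
  have hgd : g.natDegree ≤ 2 := by
    by_cases hg0 : g = 0
    · rw [hg0, natDegree_zero]; omega
    · have he : expand (ZMod p) p g ≠ 0 := (expand_ne_zero hp.out.pos).mpr hg0
      have hd := congrArg natDegree hg
      rw [natDegree_mul he hP0, natDegree_expand, hPd] at hd
      by_contra hcon
      have h3' : 3 ≤ g.natDegree := by omega
      have : 3 * p ≤ g.natDegree * p := Nat.mul_le_mul_right _ h3'
      omega
  have hgs : g = C (g.coeff 0) + C (g.coeff 1) * X + C (g.coeff 2) * X ^ 2 := by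
    rw [as_sum_range_C_mul_X_pow' (n := 3) (p := g) (by omega)]
    simp [sum_range_succ]
  have hv0 : (red p V).coeff 0 = 0 := by
    have h := ((hVEX p (by omega)).2 V hV).2
    unfold red
    rw [coeff_map, h, map_zero]
  have h2 : (2 : ZMod p) ≠ 0 := two_ne (by omega)
  have h3n : (3 : ZMod p) ≠ 0 := three_ne (by omega)
  have hD1 : (red p (Dz (nn p))).eval 0 = 1 := by
    have h := Dz_coeff_zero (nn p)
    rw [← coeff_zero_eq_eval_zero]
    unfold red
    rw [coeff_map, h, map_one]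
  have hDm : (red p (Dz (nn p))).eval (-1) ^ 2 = 1 := by
    have h := Dz_eval_neg_one (nn p)
    have h' : (red p (Dz (nn p))).eval (-1) = (-1) ^ nn p := by
      have e : (red p (Dz (nn p))).eval (((-1 : ℤ)) : ZMod p)
          = (((Dz (nn p)).eval (-1) : ℤ) : ZMod p) := by
        unfold red
        rw [eval_intCast_map]
        simp
      rw [h] at e
      push_cast at e
      exact e
    rw [h', ← pow_mul, mul_comm, pow_mul]
    simp
  -- evaluation of Gm
  have hev : ∀ a : ZMod p, (Gm p (red p V)).eval a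
      = (a + 2) * (a - 1) * (hm (3 * hh p) (red p V)).eval a
        - 3 ^ (3 * hh p) * (a * (a + 1) * ((Ks p).eval a * (Ds p).eval a)
          + (Ds p).eval a ^ 2 * (1 / 2 * (a + 3) * ph p a (-2) - 2 * a * ph p a 1
            + 3 / 2 * (a - 1) * ph p a 2)) := by
    intro a
    have e1 := STAR_ph_eval a (-2 : (ZMod p)[X])
    have e2 := STAR_ph_eval a (1 : (ZMod p)[X])
    have e3 := STAR_ph_eval a (2 : (ZMod p)[X])
    rw [eval_neg, eval_ofNat] at e1
    rw [eval_one] at e2
    rw [eval_ofNat] at e3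
    unfold Gm
    simp only [eval_sub, eval_add, eval_mul, eval_pow, eval_X, eval_C, eval_ofNat, eval_one,
      ZMod.pow_card, e1, e2, e3]
  have hev2 : ∀ a : ZMod p, (Gm p (red p V)).eval a
      = (g.coeff 0 + g.coeff 1 * a + g.coeff 2 * a ^ 2) * (Ds p).eval a ^ 2 := by
    intro a
    rw [hg, eval_mul, eval_pow, expand_eval, ZMod.pow_card]
    congr 1
    conv_lhs => rw [hgs]
    simp only [eval_add, eval_mul, eval_C, eval_X, eval_pow]
  have hKs : ∀ a : ZMod p, (ys p).eval a = 0 → (Ks p).eval a = 0 := by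
    intro a ha
    unfold Ks
    rw [eval_comp, ha, hK0]
  have hDs : ∀ a : ZMod p, (ys p).eval a = 0 → (Ds p).eval a = 1 := by
    intro a ha
    unfold Ds
    rw [eval_comp, ha, hD1]
  have y1 : (ys p).eval 1 = 0 := by
    unfold ys
    simp
  have y2 : (ys p).eval (-2) = 0 := by
    unfold ys
    simp
  have y3 : (ys p).eval (-1) = -1 := by
    unfold ys
    simp only [eval_mul, eval_C, eval_pow, eval_sub, eval_add, eval_X, eval_one, eval_ofNat]
    have h4 := four_ne (p := p) (by omega)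
    field_simp
    ring
  have hDs3 : (Ds p).eval (-1) ^ 2 = 1 := by
    unfold Ds
    rw [eval_comp, y3, hDm]
  obtain ⟨P1, P2, P3, P4, P5, P6, P7, P8, -⟩ := hPHV p (by omega)
  set κ : ZMod p := 3 ^ (3 * hh p) with hκ
  have E1 := (hev2 1).symm.trans (hev 1)
  have E2 := (hev2 (-2)).symm.trans (hev (-2))
  have E3 := (hev2 (-1)).symm.trans (hev (-1))
  rw [hKs 1 y1, hDs 1 y1, P4, P5] at E1
  rw [hKs (-2) y2, hDs (-2) y2, P6, P7, P8] at E2
  rw [hDs3, P1, P2, P3, STAR_hm_eval _ _ (-1) (by ring) hv0] at E3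
  have hhalf : (2 : ZMod p) * (1 / 2) = 1 := by field_simp
  have h32 : (3 / 2 : ZMod p) = 3 * (1 / 2) := by ring
  rw [h32] at E1 E2 E3
  have G1 : g.coeff 0 + g.coeff 1 + g.coeff 2 = 0 := by
    linear_combination E1 - 2 * κ * Q2 p * (2 * hhalf)
  have G2 : g.coeff 0 - 2 * g.coeff 1 + 4 * g.coeff 2 = -6 * κ * Q2 p := by
    linear_combination E2 + 2 * κ * Q2 p * hhalf
  have G3 : g.coeff 0 - g.coeff 1 + g.coeff 2 = κ * (3 * Q3 p - 8 * Q2 p) := by
    linear_combination E3 - κ * (8 * Q2 p - 3 * Q3 p) * hhalf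
  have c1 : g.coeff 1 = κ * (4 * Q2 p - 3 / 2 * Q3 p) := by
    apply mul_left_cancel₀ h2
    rw [h32]
    linear_combination G1 - G3 + 3 * κ * Q3 p * hhalf
  have c2 : g.coeff 2 = κ * (2 * Q2 p - 3 / 2 * Q3 p) := by
    apply mul_left_cancel₀ h3n
    linear_combination G2 - G1 + 3 * c1
  have c0 : g.coeff 0 = κ * (-6 * Q2 p + 3 * Q3 p) := by
    rw [h32] at c1 c2
    linear_combination G1 - c1 - c2 + 3 * κ * Q3 p * hhalf
  have hexp : expand (ZMod p) p g = C (g.coeff 0) + C (g.coeff 1) * X ^ p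
      + C (g.coeff 2) * X ^ (2 * p) := by
    conv_lhs => rw [hgs]
    rw [map_add, map_add, map_mul, map_mul, map_pow, expand_C, expand_C, expand_C, expand_X]
    ring
  rw [hg, hexp, c0, c1, c2]
  simp only [C_mul]
  ring

end Pool.Agent.helper60.DA
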